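import Pool.Agent.TH125.Tw.Dim

/-!
# Semidefinite subspaces of a column
-/

namespace Pool.Agent.TH125.Tw

open Module Finset

namespace Twisted

variable {n : ℕ} (X : Twisted n)

/-- The hermitian form `∫ x^∨ ∪ conj y`. -/
noncomputable def herm : X.H →ₗ[ℂ] X.H →ₛₗ[starRingEnd ℂ] ℂ := X.form ∘ₗ X.dual

theorem herm_apply (x y : X.H) : X.herm x y = X.form (X.dual x) y := rfl

theorem herm_symm_piece {p q : ℕ} {x : X.H} (hx : x ∈ X.piece p q) (y : X.H) :
    starRingEnd ℂ (X.herm x y) = (-1) ^ (n + (p + q)) * X.herm y x := by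
  rw [herm_apply, herm_apply]
  have h1 := X.dual_form y x
  have h2 := X.form_swap' x (X.dual y)
  have h3 := X.form_swap' (X.dual (X.dual x)) (X.dual y)
  rw [X.dual4] at h3
  have h4 : ∀ z w : X.H, X.form (X.dual z) (X.dual w) = (-1) ^ n * X.form (X.dual (X.dual z)) w :=
    X.dual_form
  -- reduce to homogeneous `y`
  refine X.ind (P := fun y => starRingEnd ℂ (X.form (X.dual x) y) =
    (-1) ^ (n + (p + q)) * X.form (X.dual y) x) ?_ ?_ ?_ y
  · simp
  · intro a b ha hb
    simp only [map_add, LinearMap.add_apply, ha, hb]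
    ring
  · intro p' q' y hy
    rw [X.dual_apply hx, X.dual_apply hy]
    simp only [map_smul, LinearMap.smul_apply, smul_eq_mul, map_mul, map_pow, Complex.conj_I]
    by_cases h : (p + q', q + p') = (n, n)
    · have h1 := congrArg Prod.fst h
      have h2 := congrArg Prod.snd h
      simp only at h1 h2
      rw [X.form_swap hx hy]
      have h6 : Complex.I ^ (p' + q') * Complex.I ^ (p + q) = (-1) ^ n := by
        rw [← pow_add, show p' + q' + (p + q) = 2 * n by omega, pow_mul, Complex.I_sq]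
      have h7 : (-Complex.I) ^ (p + q) * Complex.I ^ (p + q) = 1 := by
        rw [← mul_pow]
        simp
      have h8 : ((-1 : ℂ)) ^ n * (-1) ^ n = 1 := by
        rw [← mul_pow]
        norm_num
      have h9 : ((-1 : ℂ)) ^ (p + q) * (-1) ^ ((p + q) * (p' + q')) = 1 := by
        rcases Nat.even_or_odd (p + q) with h9 | h9
        · rw [h9.neg_one_pow, (h9.mul_right _).neg_one_pow, one_mul]
        · have h10 : Odd (p' + q') := by
            obtain ⟨m, hm⟩ := h9
            rcases Nat.even_or_odd (p' + q') with ⟨k, hk⟩ | h10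
            · exfalso
              omega
            · exact h10
          rw [h9.neg_one_pow, (h9.mul h10).neg_one_pow]
          norm_num
      have h10 : (-Complex.I) ^ (p + q) = (-1) ^ n * Complex.I ^ (p' + q') := by
        linear_combination (-(-Complex.I) ^ (p + q)) * h8 -
          ((-1) ^ n * (-Complex.I) ^ (p + q)) * h6 + ((-1) ^ n * Complex.I ^ (p' + q')) * h7
      rw [h10, pow_add]
      linear_combination (-((-1 : ℂ)) ^ n * Complex.I ^ (p' + q') *
        starRingEnd ℂ (X.form x y)) * h9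
    · rw [X.form_zero hx hy h, X.form_zero hy hx]
      · simp
      · intro h'
        apply h
        have h1 := congrArg Prod.fst h'
        have h2 := congrArg Prod.snd h'
        simp only at h1 h2
        ext <;> simp only <;> omega

theorem herm_symm {p q : ℕ} (hn : Even (n + (p + q))) {x : X.H} (hx : x ∈ X.column p q) (y : X.H) :
    starRingEnd ℂ (X.herm x y) = X.herm y x := by
  refine X.column_ind (P := fun x => starRingEnd ℂ (X.herm x y) = X.herm y x) ?_ ?_ ?_ hx
  · simp
  · intro a b ha hb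
    simp only [map_add, LinearMap.add_apply, ha, hb]
  · intro a b hab x hx
    rw [X.herm_symm_piece hx, Even.neg_one_pow, one_mul]
    obtain ⟨k, hk⟩ := hn
    rcases Nat.even_or_odd (n + (a + b)) with h | ⟨l, hl⟩
    · exact h
    · exfalso
      omega

theorem herm_zero {p q p' q' : ℕ} {x y : X.H} (hx : x ∈ X.piece p q) (hy : y ∈ X.piece p' q')
    (h : (p + q', q + p') ≠ (n, n)) : X.herm x y = 0 := by
  rw [herm_apply, X.dual_apply hx, map_smul, LinearMap.smul_apply,
    X.form_zero hx hy h, smul_zero]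

theorem herm_nondeg {p q : ℕ} {x : X.H} (hx : x ∈ X.column p q)
    (h : ∀ y ∈ X.column p q, X.herm x y = 0) : x = 0 := by
  have h1 : ∀ y, X.herm x y = 0 := by
    intro y
    refine X.ind (P := fun y => X.herm x y = 0) (map_zero _) ?_ ?_ y
    · intro a b ha hb
      rw [map_add, ha, hb, add_zero]
    · intro a b y hy
      by_cases hab : a + q = b + p
      · exact h y (Submodule.mem_iSup_of_mem a (Submodule.mem_iSup_of_mem b
          (Submodule.mem_iSup_of_mem hab hy)))
      · refine X.column_ind (P := fun x => X.herm x y = 0) ?_ ?_ ?_ hx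
        · simp
        · intro u v hu hv
          rw [map_add, LinearMap.add_apply, hu, hv, add_zero]
        · intro a' b' hab' x hx
          refine X.herm_zero hx hy fun h' => hab ?_
          have h1 := congrArg Prod.fst h'
          have h2 := congrArg Prod.snd h'
          simp only at h1 h2
          omega
  exact X.dual_zero_of (X.form_nondeg _ h1)

/-- The sign. -/
def eps (n b K : ℕ) : ℂ := (-1) ^ (b + K + n * (n - 1) / 2)

theorem eps_re (n b K : ℕ) (z : ℂ) : eps n b K * z = z ∨ eps n b K * z = -z := by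
  rcases Nat.even_or_odd (b + K + n * (n - 1) / 2) with h | h
  · left
    rw [eps, h.neg_one_pow, one_mul]
  · right
    rw [eps, h.neg_one_pow, neg_one_mul]

theorem tri_sign (k i : ℕ) :
    ((-1 : ℂ)) ^ ((k + 2 * i) * (k + 2 * i - 1) / 2) = (-1) ^ i * (-1) ^ (k * (k - 1) / 2) := by
  induction i with
  | zero => simp
  | succ i ih =>
    have h1 : (k + 2 * (i + 1)) * (k + 2 * (i + 1) - 1) / 2 =
        (k + 2 * i) * (k + 2 * i - 1) / 2 + (2 * (k + 2 * i) + 1) := by
      obtain ⟨m, hm⟩ : ∃ m, m = k + 2 * i := ⟨_, rfl⟩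
      have h2 : k + 2 * (i + 1) = m + 2 := by omega
      rw [h2, ← hm]
      have h3 : (m + 2) * (m + 2 - 1) = m * (m - 1) + 2 * (2 * m + 1) := by
        rcases m with _ | m
        · rfl
        · have h4 : m + 1 + 2 - 1 = m + 2 := by omega
          have h5 : m + 1 - 1 = m := by omega
          rw [h4, h5]
          ring
      rw [h3, Nat.add_mul_div_left _ _ (by norm_num)]
    rw [h1, pow_add, ih, pow_succ, pow_succ, pow_mul]
    norm_num

/-- The primitive classes. -/
def prim (a b K s : ℕ) : Submodule ℂ X.H :=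
  X.piece (a + s) (b + s) ⊓ LinearMap.ker (X.lef ^ (2 * (K - s) + 1))

/-- The hermitian form on primitive classes. -/
theorem herm_prim {a b K s : ℕ} (hK : a + b + 2 * K = n) (hs : s ≤ K) {x : X.H}
    (hx : x ∈ X.prim a b K s) (hx0 : x ≠ 0) :
    0 < ((-1) ^ (K - s) * (eps n b K *
      X.herm ((X.lef ^ (K - s)) x) ((X.lef ^ (K - s)) x))).re := by
  obtain ⟨i, hi⟩ : ∃ i, i = K - s := ⟨_, rfl⟩
  have hx1 : x ∈ X.piece (a + s) (b + s) := hx.1
  have hx2 : (X.lef ^ (2 * (K - s) + 1)) x = 0 := hx.2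
  rw [← hi] at hx2 ⊢
  have hdeg : n - ((a + s) + (b + s)) = 2 * i := by omega
  have h1 := X.hodge_riemann hx1 (by omega) (by rw [hdeg]; exact hx2) hx0
  rw [hdeg] at h1
  convert h1 using 2
  rw [herm_apply, X.dual_apply (X.lef_pow_mem hx1 i), map_smul, LinearMap.smul_apply, smul_eq_mul,
    ← X.lef_pow_form, ← Module.End.mul_apply, ← pow_add, ← two_mul]
  have h2 : a + s + i + (b + s + i) = n := by omega
  rw [h2]
  have h3 : n = (a + s + (b + s)) + 2 * i := by omega
  have h4 : (-1 : ℂ) ^ (n * (n - 1) / 2) =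
      (-1) ^ i * (-1) ^ ((a + s + (b + s)) * (a + s + (b + s) - 1) / 2) := by
    conv_lhs => rw [h3]
    exact tri_sign _ _
  have h5 : Complex.I ^ n = Complex.I ^ a * Complex.I ^ b * (-1) ^ K := by
    rw [← hK, pow_add, pow_add, pow_mul, Complex.I_sq]
  have h6 : ∀ m : ℕ, ((-1 : ℂ)) ^ m * (-1) ^ m = 1 := by
    intro m
    rw [← mul_pow]
    norm_num
  have h7 : Complex.I ^ s * (-Complex.I) ^ s = 1 := by
    rw [← mul_pow]
    simp
  have h8 : (-Complex.I) ^ b = (-1) ^ b * Complex.I ^ b := neg_pow _ _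
  rw [eps, pow_add, pow_add, h4, h5]
  have h9 : Complex.I ^ (a + s) * (-Complex.I) ^ (b + s) =
      Complex.I ^ a * ((-1) ^ b * Complex.I ^ b) := by
    rw [pow_add, pow_add, ← h8]
    linear_combination (Complex.I ^ a * (-Complex.I) ^ b) * h7
  rw [h9]
  linear_combination (Complex.I ^ a * Complex.I ^ b * (-1) ^ b *
    (-1) ^ ((a + s + (b + s)) * (a + s + (b + s) - 1) / 2) *
    X.form ((X.lef ^ (2 * i)) x) x) * ((-1) ^ K * (-1) ^ K * h6 i + h6 K)

theorem prim_zero {a b K s : ℕ} (hs : s ≤ K) {x : X.H} (hK : a + b + 2 * K = n)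
    (hx : x ∈ X.piece (a + s) (b + s)) (h : (X.lef ^ (K - s)) x = 0) : x = 0 := by
  refine X.hard_lefschetz hx (by omega) ?_
  have h1 : n - ((a + s) + (b + s)) = (K - s) + (K - s) := by omega
  rw [h1, pow_add, Module.End.mul_apply, h, map_zero]

/-- The previous value of a sequence. -/
def prev (f : ℕ → ℕ) : ℕ → ℕ
  | 0 => 0
  | s + 1 => f s

theorem prim_dim {a b K s : ℕ} (hab : a = 0 ∨ b = 0) (hK : a + b + 2 * K = n) (hs : s ≤ K) :
    X.hodgeNumber (a + s) (b + s) ≤
      finrank ℂ (X.prim a b K s) + prev (fun s => X.hodgeNumber (a + s) (b + s)) s := by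
  let f : X.piece (a + s) (b + s) →ₗ[ℂ]
      X.piece (a + s + (2 * (K - s) + 1)) (b + s + (2 * (K - s) + 1)) :=
    ((X.lef ^ (2 * (K - s) + 1)) ∘ₗ (X.piece (a + s) (b + s)).subtype).codRestrict _
      fun x => X.lef_pow_mem x.2 _
  have h1 := LinearMap.finrank_range_add_finrank_ker f
  have h2 : finrank ℂ (LinearMap.range f) ≤
      X.hodgeNumber (a + s + (2 * (K - s) + 1)) (b + s + (2 * (K - s) + 1)) :=
    Submodule.finrank_le _
  have h3 : X.hodgeNumber (a + s + (2 * (K - s) + 1)) (b + s + (2 * (K - s) + 1)) =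
      prev (fun s => X.hodgeNumber (a + s) (b + s)) s := by
    rcases s with _ | s
    · exact X.hodge_large (by omega)
    · change _ = X.hodgeNumber (a + s) (b + s)
      exact X.dim_eq (by omega) (by omega)
  have h4 : finrank ℂ (LinearMap.ker f) ≤ finrank ℂ (X.prim a b K s) := by
    let g : LinearMap.ker f →ₗ[ℂ] X.prim a b K s :=
      ((X.piece (a + s) (b + s)).subtype ∘ₗ (LinearMap.ker f).subtype).codRestrict _ fun x =>
        ⟨x.1.2, LinearMap.mem_ker.2 (congrArg Subtype.val (LinearMap.mem_ker.1 x.2))⟩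
    refine LinearMap.finrank_le_finrank_of_injective (f := g) fun x y hxy => ?_
    exact Subtype.ext (Subtype.ext (congrArg (fun z : X.prim a b K s => (z : X.H)) hxy))
  rw [hodgeNumber]
  omega

/-- The primitive classes in the middle. -/
def top (a b K s : ℕ) : Submodule ℂ X.H := (X.prim a b K s).map (X.lef ^ (K - s))

/-- The contributions of the pieces before the `s`-th one to the middle. -/
def cont (a b K s : ℕ) : Submodule ℂ X.H :=
  (range s).sup fun s' => (X.piece (a + s') (b + s')).map (X.lef ^ (K - s'))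

theorem cont_succ (a b K s : ℕ) : X.cont a b K (s + 1) =
    (X.piece (a + s) (b + s)).map (X.lef ^ (K - s)) ⊔ X.cont a b K s := by
  rw [cont, range_add_one, sup_insert]
  rfl

theorem top_dim {a b K s : ℕ} (hK : a + b + 2 * K = n) (hs : s ≤ K) :
    finrank ℂ (X.top a b K s) = finrank ℂ (X.prim a b K s) := by
  refine (LinearEquiv.finrank_eq (LinearEquiv.ofBijective
    (((X.lef ^ (K - s)) ∘ₗ (X.prim a b K s).subtype).codRestrict (X.top a b K s)
      fun x => Submodule.mem_map_of_mem x.2) ⟨?_, ?_⟩)).symm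
  · rw [← LinearMap.ker_eq_bot, LinearMap.ker_eq_bot']
    intro x hx
    apply Subtype.ext
    exact X.prim_zero hs hK x.2.1 (congrArg Subtype.val hx)
  · rintro ⟨_, x, hx, rfl⟩
    exact ⟨⟨x, hx⟩, rfl⟩

theorem top_pos {a b K s : ℕ} (hK : a + b + 2 * K = n) (hs : s ≤ K) {x : X.H}
    (hx : x ∈ X.top a b K s) (hx0 : x ≠ 0) :
    0 < ((-1) ^ (K - s) * (eps n b K * X.herm x x)).re := by
  obtain ⟨y, hy, rfl⟩ := hx
  refine X.herm_prim hK hs hy fun h => hx0 ?_
  rw [h, map_zero]

theorem top_orth {a b K s : ℕ} (hs : s ≤ K) {x y : X.H}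
    (hx : x ∈ X.top a b K s) (hy : y ∈ X.cont a b K s) :
    X.herm x y = 0 ∧ X.herm y x = 0 := by
  obtain ⟨x, hx, rfl⟩ := hx
  have hx2 : (X.lef ^ (2 * (K - s) + 1)) x = 0 := hx.2
  have hle : X.cont a b K s ≤
      (LinearMap.ker (X.herm ((X.lef ^ (K - s)) x)) ⊓
        LinearMap.ker (X.herm.flip ((X.lef ^ (K - s)) x)) : Submodule ℂ X.H) := by
    refine Finset.sup_le fun s' hs' => ?_
    rw [mem_range] at hs'
    rintro _ ⟨z, hz, rfl⟩
    have h1 : (X.lef ^ ((K - s') + (K - s))) x = 0 := by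
      have h2 : (K - s') + (K - s) = (s - s' - 1) + (2 * (K - s) + 1) := by omega
      rw [h2, pow_add, Module.End.mul_apply, hx2, map_zero]
    constructor
    · change X.herm ((X.lef ^ (K - s)) x) ((X.lef ^ (K - s')) z) = 0
      rw [herm_apply, X.dual_apply (X.lef_pow_mem hx.1 _), map_smul, LinearMap.smul_apply,
        ← X.lef_pow_form, ← Module.End.mul_apply, ← pow_add, h1, map_zero,
        LinearMap.zero_apply, smul_zero]
    · change X.herm ((X.lef ^ (K - s')) z) ((X.lef ^ (K - s)) x) = 0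
      rw [herm_apply, X.dual_apply (X.lef_pow_mem hz _), map_smul, LinearMap.smul_apply,
        X.lef_pow_form, ← Module.End.mul_apply, ← pow_add, h1, map_zero, smul_zero]
  exact hle hy

end Twisted

end Pool.Agent.TH125.Tw
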