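import Pool.Agent.TH125.Tw.Main

/-!
# Cohomological support loci
-/

namespace Pool.Agent.TH125.Tw

open Module Finset

/-- A family of unitary flat line bundles `α ∈ T` on `X` and the cohomologies with values in them. -/
abbrev Family (T : Type) (n : ℕ) := T → Twisted n

/-- The cohomological support locus `V^i_m(ω) = {α | dim H^i(X, ω ⊗ α) ≥ m}`. -/
def supportLocus {T : Type} {n : ℕ} (X : Family T n) (i m : ℕ) : Set T :=
  {α | m ≤ (X α).hodgeNumber n i}

variable {n : ℕ} {X Y : Twisted n}

theorem hodge_n_zero (Φ : Transform X Y) : X.hodgeNumber n 0 = Y.hodgeNumber n 0 := by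
  have h1 := column_sum Φ (a := n) (b := 0) (t := 0) (Or.inr rfl) (by omega)
  simpa using h1

theorem hodge_n_one (Φ : Transform X Y) (h : 1 ≤ n) :
    X.hodgeNumber n 1 = Y.hodgeNumber n 1 := by
  have h1 := column_sum Φ (a := n - 1) (b := 0) (t := 1) (Or.inr rfl) (by omega)
  have h2 : ∀ Z : Twisted n, Z.hodgeNumber (n - 1) 0 = Z.hodgeNumber n 1 :=
    fun Z => Z.dim_eq (by omega) (by omega)
  simp only [sum_range_succ, range_zero, sum_empty, zero_add, add_zero] at h1
  have h3 : n - 1 + 1 = n := by omega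
  rw [h3, h2, h2] at h1
  omega

theorem hodge_n_two (Φ : Transform X Y) (h : 2 ≤ n) :
    X.hodgeNumber n 2 = Y.hodgeNumber n 2 := by
  have h1 := (relations Φ (p := n - 1) (q := 1) (by omega)).1
  have h2 : min (n - 1) 1 = 1 := by omega
  have h3 : (range (1 + 1)).filter (fun i => Odd i) = {1} := by decide
  rw [Twisted.oddDiagonal, Twisted.oddDiagonal, h2, h3, sum_singleton, sum_singleton] at h1
  have h4 : ∀ Z : Twisted n, Z.hodgeNumber (n - 1 - 1) (1 - 1) = Z.hodgeNumber n 2 :=
    fun Z => Z.dim_eq (by omega) (by omega)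
  rwa [h4, h4] at h1

theorem loci {S T : Type} (F : S ≃ T) (X : Family S n) (Y : Family T n)
    (Φ : ∀ α, Transform (X α) (Y (F α))) (i : ℕ) (hi : i ≤ 2) (hin : i ≤ n) (m : ℕ) :
    F '' supportLocus X i m = supportLocus Y i m := by
  have h : ∀ α, (X α).hodgeNumber n i = (Y (F α)).hodgeNumber n i := by
    intro α
    interval_cases i
    · exact hodge_n_zero (Φ α)
    · exact hodge_n_one (Φ α) hin
    · exact hodge_n_two (Φ α) hin
  ext β
  constructor
  · rintro ⟨α, hα, rfl⟩
    exact hα.trans_eq (h α)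
  · intro hβ
    refine ⟨F.symm β, ?_, F.apply_symm_apply β⟩
    change m ≤ _
    rw [h, F.apply_symm_apply]
    exact hβ

end Pool.Agent.TH125.Tw
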