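import Pool.Agent.TH125.Tw.Torsion
import Pool.Agent.TH125.Tw.Loci

/-!
# Fibrations and derived equivalences
-/

namespace Pool.Agent.TH125.Tw

open Module Finset

/-- Let `f : X → B` be a fibration (surjective, with connected fibres), `X` a smooth projective
complex variety of dimension `n`, with general fibres of dimension `d`, smooth over the open subset
`B°`. Let `ι` be a finite set of simple complex polarizable variations of Hodge structure over `B°`,
up to isomorphism and shift of the types, which contains the constituents of all `R^k f_* ℂ`,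
and `one` the constant variation. For `s` in `ι` let `fibre s` be the multiplicity space of `s` in
the cohomology of the fibres, where the types in `s` are `(r, -r)`, and `r = 0` is the largest `r` which
occurs, and let `e s j` be the dimension of `H^j` of the coherent sheaf on `B` attached by Kollár and
Saito to the highest Hodge piece of `s`. -/
structure Fibration (n d : ℕ) (ι : Type) [Fintype ι] [DecidableEq ι] (one : ι)
    (e : ι → ℕ → ℕ) where
  /-- The cohomology of `X` with complex coefficients. -/
  base : Twisted n
  connected : base.hodgeNumber 0 0 = 1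
  /-- The Hodge symmetry. -/
  symmetry : ∀ p q, base.hodgeNumber p q = base.hodgeNumber q p
  /-- The multiplicity spaces in the cohomology of the fibres. -/
  fibre : ι → Twisted d
  fibre_connected : ∀ s, (fibre s).hodgeNumber 0 0 = if s = one then 1 else 0
  /-- Kollár's theorem `H^q(X, ω) = ⨁ H^{q-i}(B, R^i f_* ω)`. -/
  kollar : ∀ q, base.hodgeNumber n q =
    ∑ s, ∑ i ∈ range (q + 1), e s (q - i) * (fibre s).hodgeNumber d i

/-- The maps given by a derived equivalence over `B`: the transform of the cohomologies, and the
transforms of the multiplicity spaces of the variations `s`, obtained from the equivalences of the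
fibres; moreover the variations `R^1 f_* ℚ` are isomorphic, which is the theorem of Popa and Schnell
on the Albanese varieties applied to the generic fibres. -/
structure RelativeTransform {n d : ℕ} {ι : Type} [Fintype ι] [DecidableEq ι] {one : ι}
    {e : ι → ℕ → ℕ} (X Y : Fibration n d ι one e) where
  /-- The transform of the cohomologies of `X` and `Y`. -/
  total : Transform X.base Y.base
  /-- The transforms of the multiplicity spaces. -/
  fibre : ∀ s, Transform (X.fibre s) (Y.fibre s)
  albanese : ∀ s, (X.fibre s).hodgeNumber 1 0 = (Y.fibre s).hodgeNumber 1 0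

namespace RelativeTransform

variable {n d : ℕ} {ι : Type} [Fintype ι] [DecidableEq ι] {one : ι} {e : ι → ℕ → ℕ}
  {X Y : Fibration n d ι one e}

theorem hodge_fibre (Φ : RelativeTransform X Y) (hd : d ≤ 4) (s : ι) (i : ℕ) :
    (X.fibre s).hodgeNumber d i = (Y.fibre s).hodgeNumber d i := by
  by_cases hi : d < i
  · rw [(X.fibre s).hodge_large (Or.inr hi), (Y.fibre s).hodge_large (Or.inr hi)]
  push Not at hi
  by_cases h0 : i = 0
  · rw [h0]
    exact hodge_n_zero (Φ.fibre s)
  by_cases h1 : i = 1
  · rw [h1]
    exact hodge_n_one (Φ.fibre s) (by omega)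
  by_cases h2 : i = 2
  · rw [h2]
    exact hodge_n_two (Φ.fibre s) (by omega)
  by_cases h3 : i = d
  · have h : ∀ Z : Twisted d, Z.hodgeNumber d i = Z.hodgeNumber 0 0 :=
      fun Z => Z.dim_eq (by omega) (by omega)
    rw [h, h, X.fibre_connected, Y.fibre_connected]
  · have h : ∀ Z : Twisted d, Z.hodgeNumber d i = Z.hodgeNumber 1 0 :=
      fun Z => Z.dim_eq (by omega) (by omega)
    rw [h, h]
    exact Φ.albanese s

theorem hodge_canonical (Φ : RelativeTransform X Y) (hd : d ≤ 4) (q : ℕ) :
    X.base.hodgeNumber n q = Y.base.hodgeNumber n q := by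
  rw [X.kollar, Y.kollar]
  refine sum_congr rfl fun s _ => sum_congr rfl fun i _ => ?_
  rw [Φ.hodge_fibre hd]

/-- **The numbers `h^{0,q}`.** -/
theorem hodge_zero (Φ : RelativeTransform X Y) (hd : d ≤ 4) (q : ℕ) :
    X.base.hodgeNumber 0 q = Y.base.hodgeNumber 0 q := by
  by_cases hq : n < q
  · rw [X.base.hodge_large (Or.inr hq), Y.base.hodge_large (Or.inr hq)]
  push Not at hq
  have h : ∀ Z : Fibration n d ι one e, Z.base.hodgeNumber 0 q = Z.base.hodgeNumber n (n - q) := by
    intro Z
    rw [Z.symmetry n]
    exact Z.base.dim_eq (by omega) (by omega)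
  rw [h, h]
  exact Φ.hodge_canonical hd _

end RelativeTransform

end Pool.Agent.TH125.Tw
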