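import Pool.Agent.TH125.Tw.Sections

/-!
# Fivefolds with a fibration
-/

namespace Pool.Agent.TH125.Tw

open Module Finset

theorem five_aux2 (f g : ℕ → ℕ → ℕ)
    (fc : ∀ p q, f p q = f q p) (gc : ∀ p q, g p q = g q p)
    (fd : ∀ p q, p ≤ 5 → q ≤ 5 → f p q = f (5 - q) (5 - p))
    (gd : ∀ p q, p ≤ 5 → q ≤ 5 → g p q = g (5 - q) (5 - p))
    (h00 : f 0 0 = g 0 0) (h01 : f 0 1 = g 0 1) (h02 : f 0 2 = g 0 2)
    (h21 : f 2 1 = g 2 1) (h30 : f 3 0 = g 3 0) (h41 : f 4 1 = g 4 1) (h50 : f 5 0 = g 5 0)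
    (h32 : f 3 2 + 2 * f 1 0 = g 3 2 + 2 * g 1 0)
    (h40 : f 4 0 + f 5 1 = g 4 0 + g 5 1)
    (h20 : f 2 0 + f 3 1 + f 4 2 + f 5 3 = g 2 0 + g 3 1 + g 4 2 + g 5 3)
    (h0 : f 0 0 + f 1 1 + f 2 2 + f 3 3 + f 4 4 + f 5 5 =
      g 0 0 + g 1 1 + g 2 2 + g 3 3 + g 4 4 + g 5 5)
    (hm : ∑ p ∈ range 6, ∑ q ∈ range 6, (-1) ^ (p + q) * (2 * (p : ℤ) - 5) ^ 2 * (f p q : ℤ) =
      ∑ p ∈ range 6, ∑ q ∈ range 6, (-1) ^ (p + q) * (2 * (p : ℤ) - 5) ^ 2 * (g p q : ℤ)) :
    ∀ p q, p ≤ 5 → q ≤ 5 → f p q = g p q := by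
  have f1 := fc 1 0
  have f2 := fc 2 0
  have f3 := fc 3 0
  have f4 := fc 4 0
  have f5 := fc 5 0
  have f6 := fc 2 1
  have f7 := fc 3 1
  have f8 := fc 4 1
  have f9 := fc 5 1
  have f10 := fc 3 2
  have f11 := fc 4 2
  have f12 := fc 5 2
  have f13 := fc 4 3
  have f14 := fc 5 3
  have f15 := fc 5 4
  have g1 := gc 1 0
  have g2 := gc 2 0
  have g3 := gc 3 0
  have g4 := gc 4 0
  have g5 := gc 5 0
  have g6 := gc 2 1
  have g7 := gc 3 1
  have g8 := gc 4 1
  have g9 := gc 5 1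
  have g10 := gc 3 2
  have g11 := gc 4 2
  have g12 := gc 5 2
  have g13 := gc 4 3
  have g14 := gc 5 3
  have g15 := gc 5 4
  have f16 : f 5 5 = f 0 0 := fd 5 5 (by norm_num) (by norm_num)
  have f17 : f 4 4 = f 1 1 := fd 4 4 (by norm_num) (by norm_num)
  have f18 : f 3 3 = f 2 2 := fd 3 3 (by norm_num) (by norm_num)
  have f19 : f 5 4 = f 1 0 := fd 5 4 (by norm_num) (by norm_num)
  have f20 : f 5 3 = f 2 0 := fd 5 3 (by norm_num) (by norm_num)
  have f21 : f 5 2 = f 3 0 := fd 5 2 (by norm_num) (by norm_num)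
  have f22 : f 5 1 = f 4 0 := fd 5 1 (by norm_num) (by norm_num)
  have f23 : f 4 3 = f 2 1 := fd 4 3 (by norm_num) (by norm_num)
  have f24 : f 4 2 = f 3 1 := fd 4 2 (by norm_num) (by norm_num)
  have g16 : g 5 5 = g 0 0 := gd 5 5 (by norm_num) (by norm_num)
  have g17 : g 4 4 = g 1 1 := gd 4 4 (by norm_num) (by norm_num)
  have g18 : g 3 3 = g 2 2 := gd 3 3 (by norm_num) (by norm_num)
  have g19 : g 5 4 = g 1 0 := gd 5 4 (by norm_num) (by norm_num)
  have g20 : g 5 3 = g 2 0 := gd 5 3 (by norm_num) (by norm_num)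
  have g21 : g 5 2 = g 3 0 := gd 5 2 (by norm_num) (by norm_num)
  have g22 : g 5 1 = g 4 0 := gd 5 1 (by norm_num) (by norm_num)
  have g23 : g 4 3 = g 2 1 := gd 4 3 (by norm_num) (by norm_num)
  have g24 : g 4 2 = g 3 1 := gd 4 2 (by norm_num) (by norm_num)
  simp only [sum_range_succ, range_zero, sum_empty, zero_add] at hm
  norm_num at hm
  have k20 : f 3 1 = g 3 1 := by omega
  have k40 : f 4 0 = g 4 0 := by omega
  have k32 : f 3 2 = g 3 2 := by omega
  have k1 : f 1 1 = g 1 1 := by omega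
  have k2 : f 2 2 = g 2 2 := by omega
  intro p q hp hq
  interval_cases p <;> interval_cases q <;> omega

/-- **Fivefolds with a fibration.** -/
theorem fivefolds' {d : ℕ} {ι : Type} [Fintype ι] [DecidableEq ι] {one : ι} {e : ι → ℕ → ℕ}
    {X Y : Fibration 5 d ι one e} (Φ : RelativeTransform X Y) (hd : d ≤ 4)
    (hm : moment X.base = moment Y.base) (p q : ℕ) :
    X.base.hodgeNumber p q = Y.base.hodgeNumber p q := by
  by_cases hpq : p ≤ 5 ∧ q ≤ 5
  swap
  · have hlarge : ∀ Z : Twisted 5, Z.hodgeNumber p q = 0 := by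
      intro Z
      exact Z.hodge_large (by omega)
    rw [hlarge, hlarge]
  have h00 : X.base.hodgeNumber 0 0 = Y.base.hodgeNumber 0 0 := by
    rw [X.connected, Y.connected]
  have h01 := Φ.hodge_zero hd 1
  have h02 := Φ.hodge_zero hd 2
  have r32 := relations Φ.total (p := 3) (q := 2) rfl
  have r41 := relations Φ.total (p := 4) (q := 1) rfl
  have r50 := relations Φ.total (p := 5) (q := 0) rfl
  have c40 := column_sum Φ.total (a := 4) (b := 0) (t := 1) (Or.inr rfl) rfl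
  have c20 := column_sum Φ.total (a := 2) (b := 0) (t := 3) (Or.inr rfl) rfl
  have c00 := column_sum Φ.total (a := 0) (b := 0) (t := 5) (Or.inr rfl) rfl
  have e1 : (range (min 3 2 + 1)).filter (fun i => Odd i) = {1} := by decide
  have e2 : (range (min 3 2 + 1)).filter (fun i => Even i ∧ 2 ≤ i) = {2} := by decide
  have e3 : (range (min 4 1 + 1)).filter (fun i => Odd i) = {1} := by decide
  have e4 : (range (min 4 1 + 1)).filter (fun i => Even i ∧ 2 ≤ i) = ∅ := by decide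
  have e5 : (range (min 5 0 + 1)).filter (fun i => Odd i) = ∅ := by decide
  have e6 : (range (min 5 0 + 1)).filter (fun i => Even i ∧ 2 ≤ i) = ∅ := by decide
  simp only [Twisted.oddDiagonal, Twisted.evenDiagonal, e1, e2, e3, e4, e5, e6,
    sum_singleton, sum_empty, mul_zero, add_zero] at r32 r41 r50
  norm_num at r32 r41 r50
  simp only [sum_range_succ, range_zero, sum_empty, zero_add, add_zero] at c40 c20 c00
  norm_num at c40 c20 c00
  rw [moment, moment] at hm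
  exact five_aux2 X.base.hodgeNumber Y.base.hodgeNumber X.symmetry Y.symmetry
    (fun p q hp hq => X.base.dim_eq (by omega) (by omega))
    (fun p q hp hq => Y.base.dim_eq (by omega) (by omega)) h00 h01 h02 r32.1 r41.1 r41.2 r50
    r32.2 c40 c20 c00 hm p q hpq.1 hpq.2

end Pool.Agent.TH125.Tw
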