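import Pool.Agent.TH125.Tw.Inertia

/-!
# Fourier–Mukai transforms and Hodge numbers
-/

namespace Pool.Agent.TH125.Tw

open Module Finset

namespace Twisted

variable {n : ℕ} (X : Twisted n)

/-- The pieces which are not in a column. -/
def other (p q : ℕ) : Submodule ℂ X.H :=
  ⨆ i ∈ {i : ℕ × ℕ | i.1 + q ≠ i.2 + p}, X.piece i.1 i.2

theorem column_eq_biSup (p q : ℕ) :
    X.column p q = ⨆ i ∈ {i : ℕ × ℕ | i.1 + q = i.2 + p}, X.piece i.1 i.2 := by
  apply le_antisymm
  · refine iSup_le fun a => iSup_le fun b => iSup_le fun h => ?_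
    exact le_iSup₂_of_le (f := fun (i : ℕ × ℕ) (_ : i ∈ {i : ℕ × ℕ | i.1 + q = i.2 + p}) =>
      X.piece i.1 i.2) (a, b) h le_rfl
  · refine iSup₂_le fun i hi => ?_
    exact le_iSup_of_le i.1 (le_iSup_of_le i.2 (le_iSup_of_le hi le_rfl))

theorem disjoint_other (p q : ℕ) : Disjoint (X.column p q) (X.other p q) := by
  rw [column_eq_biSup, other]
  refine X.internal.submodule_iSupIndep.disjoint_biSup_biSup ?_
  rw [Set.disjoint_left]
  intro i hi hi'
  exact hi' hi

theorem exists_dec (p q : ℕ) (x : X.H) : ∃ y ∈ X.column p q, ∃ z ∈ X.other p q, x = y + z := by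
  refine X.ind (P := fun x => ∃ y ∈ X.column p q, ∃ z ∈ X.other p q, x = y + z) ?_ ?_ ?_ x
  · exact ⟨0, Submodule.zero_mem _, 0, Submodule.zero_mem _, (add_zero 0).symm⟩
  · rintro _ _ ⟨y, hy, z, hz, rfl⟩ ⟨y', hy', z', hz', rfl⟩
    exact ⟨y + y', Submodule.add_mem _ hy hy', z + z', Submodule.add_mem _ hz hz', by abel⟩
  · intro a b x hx
    by_cases h : a + q = b + p
    · refine ⟨x, ?_, 0, Submodule.zero_mem _, (add_zero x).symm⟩
      exact Submodule.mem_iSup_of_mem a (Submodule.mem_iSup_of_mem b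
        (Submodule.mem_iSup_of_mem h hx))
    · refine ⟨0, Submodule.zero_mem _, x, ?_, (zero_add x).symm⟩
      exact Submodule.mem_iSup_of_mem (a, b) (Submodule.mem_iSup_of_mem h hx)

end Twisted

namespace Transform

variable {n : ℕ} {X Y : Twisted n} (Φ : Transform X Y)

theorem map_column {p q : ℕ} {x : X.H} (hx : x ∈ X.column p q) : Φ.map x ∈ Y.column p q := by
  refine X.column_ind (P := fun x => Φ.map x ∈ Y.column p q) ?_ ?_ ?_ hx
  · rw [map_zero]
    exact Submodule.zero_mem _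
  · intro a b ha hb
    rw [map_add]
    exact Submodule.add_mem _ ha hb
  · intro a b h x hx
    have h1 := Φ.map_mem hx
    rwa [Y.column_shift (a := p) (b := q) (by omega)] at h1

theorem map_other {p q : ℕ} {x : X.H} (hx : x ∈ X.other p q) : Φ.map x ∈ Y.other p q := by
  have hle : X.other p q ≤ (Y.other p q).comap Φ.map.toLinearMap := by
    refine iSup₂_le fun i hi x hx => ?_
    have h1 := Φ.map_mem hx
    have h2 : Y.column i.1 i.2 ≤ Y.other p q := by
      refine iSup_le fun a => iSup_le fun b => iSup_le fun h => ?_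
      refine le_iSup₂_of_le (f := fun (i : ℕ × ℕ) (_ : i ∈ {i : ℕ × ℕ | i.1 + q ≠ i.2 + p}) =>
        Y.piece i.1 i.2) (a, b) ?_ le_rfl
      intro h'
      apply hi
      simp only at h'
      omega
    exact h2 h1
  exact hle hx

theorem symm_column {p q : ℕ} {y : Y.H} (hy : y ∈ Y.column p q) :
    Φ.map.symm y ∈ X.column p q := by
  obtain ⟨c, hc, d, hd, h⟩ := X.exists_dec p q (Φ.map.symm y)
  have h1 : y = Φ.map c + Φ.map d := by
    rw [← map_add, ← h, LinearEquiv.apply_symm_apply]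
  have h2 : Φ.map d ∈ Y.column p q := by
    have h3 : Φ.map d = y - Φ.map c := by
      rw [h1, add_sub_cancel_left]
    rw [h3]
    exact Submodule.sub_mem _ hy (Φ.map_column hc)
  have h3 : Φ.map d = 0 := by
    have h4 := (Y.disjoint_other p q).le_bot ⟨h2, Φ.map_other hd⟩
    exact (Submodule.mem_bot ℂ).1 h4
  have h4 : d = 0 := Φ.map.injective (by rw [h3, map_zero])
  rw [h, h4, add_zero]
  exact hc

include Φ in
/-- The columns have the same dimension. -/
theorem finrank_column (p q : ℕ) :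
    finrank ℂ (X.column p q) = finrank ℂ (Y.column p q) := by
  refine LinearEquiv.finrank_eq (LinearEquiv.ofBijective
    ((Φ.map.toLinearMap ∘ₗ (X.column p q).subtype).codRestrict (Y.column p q)
      fun x => Φ.map_column x.2) ⟨?_, ?_⟩)
  · intro x y h
    exact Subtype.ext (Φ.map.injective (congrArg Subtype.val h))
  · intro y
    refine ⟨⟨Φ.map.symm y, Φ.symm_column y.2⟩, ?_⟩
    apply Subtype.ext
    exact Φ.map.apply_symm_apply y.1

theorem map_sform (b K : ℕ) (x y : X.H) :
    Y.sform b K (Φ.map x) (Φ.map y) = X.sform b K x y := by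
  rw [Twisted.sform_apply, Twisted.sform_apply, Twisted.herm_apply, Twisted.herm_apply,
    Φ.map_form']

include Φ in
/-- The inertia inequality for a subspace of the cohomology of `X` and one of the cohomology
of `Y`. -/
theorem le_column {a b K : ℕ} (hK : a + b + 2 * K = n) {P : Submodule ℂ X.H}
    {N : Submodule ℂ Y.H} (hP : P ≤ X.column a b) (hN : N ≤ Y.column a b)
    (h : ((∀ x ∈ P, 0 ≤ (X.sform b K x x).re) ∧ ∀ x ∈ N, (Y.sform b K x x).re ≤ 0) ∨
      (∀ x ∈ P, (X.sform b K x x).re ≤ 0) ∧ ∀ x ∈ N, 0 ≤ (Y.sform b K x x).re) :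
    finrank ℂ P + finrank ℂ N ≤ finrank ℂ (Y.column a b) := by
  have hsymm : ∀ x ∈ Y.column a b, ∀ y ∈ Y.column a b,
      starRingEnd ℂ (Y.sform b K x y) = Y.sform b K y x := by
    intro x hx y _
    rw [Twisted.sform_apply, Twisted.sform_apply, map_mul,
      Y.herm_symm ⟨a + b + K, by omega⟩ hx]
    congr 1
    rw [Twisted.eps, map_pow, map_neg, map_one]
  have heps : Twisted.eps n b K ≠ 0 := pow_ne_zero _ (by norm_num)
  have hnd : ∀ x ∈ Y.column a b, (∀ y ∈ Y.column a b, Y.sform b K x y = 0) → x = 0 := by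
    intro x hx hxy
    refine Y.herm_nondeg hx fun y hy => ?_
    exact (mul_eq_zero.1 (hxy y hy)).resolve_left heps
  have hdim : finrank ℂ (P.map Φ.map.toLinearMap) = finrank ℂ P :=
    LinearEquiv.finrank_map_eq Φ.map P
  have hmap : P.map Φ.map.toLinearMap ≤ Y.column a b := by
    rintro _ ⟨x, hx, rfl⟩
    exact Φ.map_column (hP hx)
  rw [← hdim]
  rcases h with ⟨h1, h2⟩ | ⟨h1, h2⟩
  · refine Pool.Agent.TH125.Der.semidefinite_le (Y.sform b K) hsymm hnd hmap hN ?_ h2
    rintro _ ⟨x, hx, rfl⟩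
    have h3 := Φ.map_sform b K x x
    exact (h1 x hx).trans_eq (congrArg Complex.re h3.symm)
  · rw [add_comm]
    refine Pool.Agent.TH125.Der.semidefinite_le (Y.sform b K) hsymm hnd hN hmap h2 ?_
    rintro _ ⟨x, hx, rfl⟩
    have h3 := Φ.map_sform b K x x
    exact (congrArg Complex.re h3).trans_le (h1 x hx)

end Transform

end Pool.Agent.TH125.Tw

namespace Pool.Agent.TH125.Tw

open Module Finset

theorem oddSum_eq (f g : ℕ → ℕ) (K : ℕ) (h : ∀ i ≤ K, g i = f (K - i)) :
    ∑ i ∈ range (K + 1) with Odd i, g i = Twisted.oddSum K f K := by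
  rw [sum_filter, ← Finset.sum_range_reflect, Twisted.oddSum, sum_range_succ]
  have h1 : K + 1 - 1 - K = 0 := by omega
  rw [h1, if_neg (by decide : ¬ Odd 0), add_zero]
  refine sum_congr rfl fun s hs => ?_
  rw [mem_range] at hs
  have h2 : K + 1 - 1 - s = K - s := by omega
  rw [h2]
  by_cases h3 : Even (K - s)
  · rw [if_pos h3, if_neg (Nat.not_odd_iff_even.2 h3)]
  · rw [if_neg h3, if_pos (Nat.not_even_iff_odd.1 h3), h _ (by omega)]
    congr 1
    omega

theorem evenSum_eq (f g : ℕ → ℕ) (K : ℕ) (h : ∀ i ≤ K, g i = f (K - i)) :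
    ∑ i ∈ range (K + 1) with Even i ∧ 2 ≤ i, g i = Twisted.evenSum K f K := by
  rw [sum_filter, ← Finset.sum_range_reflect, Twisted.evenSum, sum_range_succ]
  have h1 : K + 1 - 1 - K = 0 := by omega
  rw [h1, if_neg (by omega : ¬ (Even 0 ∧ 2 ≤ 0)), add_zero]
  refine sum_congr rfl fun s hs => ?_
  rw [mem_range] at hs
  have h2 : K + 1 - 1 - s = K - s := by omega
  rw [h2]
  by_cases h3 : Even (K - s)
  · have h4 : 2 ≤ K - s := by
      obtain ⟨r, hr⟩ := h3
      omega
    rw [if_pos h3, if_pos ⟨h3, h4⟩, h _ (by omega)]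
    congr 1
    omega
  · rw [if_neg h3, if_neg (fun h5 => h3 h5.1)]

variable {n : ℕ} {X Y : Twisted n}

theorem relations (Φ : Transform X Y) {p q : ℕ} (h : p + q = n) :
    X.oddDiagonal p q = Y.oddDiagonal p q ∧
      X.hodgeNumber p q + 2 * X.evenDiagonal p q =
        Y.hodgeNumber p q + 2 * Y.evenDiagonal p q := by
  obtain ⟨K, hKdef⟩ : ∃ K, K = min p q := ⟨_, rfl⟩
  obtain ⟨a, rfl⟩ : ∃ a, p = a + K := ⟨p - K, by omega⟩
  obtain ⟨b, rfl⟩ : ∃ b, q = b + K := ⟨q - K, by omega⟩
  have hab : a = 0 ∨ b = 0 := by omega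
  have hK : a + b + 2 * K = n := by omega
  have hodd : ∀ Z : Twisted n, Z.oddDiagonal (a + K) (b + K) =
      Twisted.oddSum K (fun s => Z.hodgeNumber (a + s) (b + s)) K := by
    intro Z
    rw [Twisted.oddDiagonal, ← hKdef]
    refine oddSum_eq _ _ K fun i hi => ?_
    have h1 : a + K - i = a + (K - i) := by omega
    have h2 : b + K - i = b + (K - i) := by omega
    rw [h1, h2]
  have heven : ∀ Z : Twisted n, Z.evenDiagonal (a + K) (b + K) =
      Twisted.evenSum K (fun s => Z.hodgeNumber (a + s) (b + s)) K := by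
    intro Z
    rw [Twisted.evenDiagonal, ← hKdef]
    refine evenSum_eq _ _ K fun i hi => ?_
    have h1 : a + K - i = a + (K - i) := by omega
    have h2 : b + K - i = b + (K - i) := by omega
    rw [h1, h2]
  rw [hodd X, hodd Y, heven X, heven Y]
  obtain ⟨P, N, hP, hN, hP', hN', hdP, hdN⟩ := X.inertia hab hK
  obtain ⟨P2, N2, hP2, hN2, hP2', hN2', hdP2, hdN2⟩ := Y.inertia hab hK
  have h1 := Φ.le_column hK hP hN2 (Or.inl ⟨hP', hN2'⟩)
  have h2 := Φ.le_column hK hN hP2 (Or.inr ⟨hN', hP2'⟩)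
  have hsum : ∀ Z : Twisted n, finrank ℂ (Z.column a b) =
      Z.hodgeNumber (a + K) (b + K) +
        2 * Twisted.evenSum K (fun s => Z.hodgeNumber (a + s) (b + s)) K +
        2 * Twisted.oddSum K (fun s => Z.hodgeNumber (a + s) (b + s)) K := by
    intro Z
    rw [Z.column_eq hab hK, Z.finrank_low]
    have h3 := Twisted.even_add_odd K (fun s => Z.hodgeNumber (a + s) (b + s)) K
    have h4 : 2 * K + 1 = K + 1 + K := by omega
    rw [h4, sum_range_add, sum_range_succ]
    have h5 : ∑ x ∈ range K, Z.hodgeNumber (a + (K + 1 + x)) (b + (K + 1 + x)) =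
        ∑ s ∈ range K, Z.hodgeNumber (a + s) (b + s) := by
      rw [← Finset.sum_range_reflect]
      refine sum_congr rfl fun s hs => ?_
      rw [mem_range] at hs
      exact Z.dim_eq (by omega) (by omega)
    rw [h5]
    omega
  have h3 := hsum X
  have h4 := hsum Y
  have h5 := Φ.finrank_column a b
  omega

/-- The dimension of a column. -/
theorem column_sum (Φ : Transform X Y) {a b t : ℕ} (hab : a = 0 ∨ b = 0) (ht : a + b + t = n) :
    ∑ s ∈ range (t + 1), X.hodgeNumber (a + s) (b + s) =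
      ∑ s ∈ range (t + 1), Y.hodgeNumber (a + s) (b + s) := by
  have h1 := Φ.finrank_column a b
  rw [X.column_eq hab ht, Y.column_eq hab ht, X.finrank_low, Y.finrank_low] at h1
  exact h1

end Pool.Agent.TH125.Tw
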