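import Pool.Agent.TH125.Tw.Basic

/-!
# Mukai isometries are isometries for the form without the factor `exp(c₁ / 2)`
-/

namespace Pool.Agent.TH125.Tw

open Module Finset

namespace Twisted

variable {n : ℕ} (X : Twisted n)

/-- The pairings `∫ exp(t c₁) ∪ x^∨ ∪ conj y`. -/
noncomputable def pair (t : ℂ) (x y : X.H) : ℂ := X.form (X.expChern t (X.dual x)) y

theorem mukai_eq (x y : X.H) : X.mukai x y = X.pair (1 / 2) x y := rfl

theorem pair_add (s : ℂ) (t : ℝ) (x y : X.H) :
    X.pair (s + t) x y = X.pair s x (X.expChern t y) := by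
  rw [pair, pair, add_comm, X.expChern_add, Module.End.mul_apply, X.expChern_form]

theorem half : (1 / 2 : ℂ) = ((1 / 2 : ℝ) : ℂ) := by
  push_cast
  rfl

theorem mukai_swap (x y : X.H) : X.mukai y x =
    (-1) ^ n * starRingEnd ℂ (X.pair (-(1 / 2)) (X.dual (X.dual x)) y) := by
  have h1 : X.expChern (1 / 2) (X.dual (X.dual x)) =
      X.dual (X.expChern (-(1 / 2)) (X.dual x)) := by
    rw [X.dual_expChern, neg_neg]
  have h2 : X.dual (X.dual (X.expChern (-(1 / 2)) (X.dual x))) =
      X.expChern (-(1 / 2)) (X.dual (X.dual (X.dual x))) := by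
    rw [X.dual_expChern, X.dual_expChern, neg_neg]
  calc X.mukai y x = X.form (X.expChern (1 / 2) (X.dual y)) x := rfl
    _ = starRingEnd ℂ (X.form (X.dual (X.dual x)) (X.expChern (1 / 2) (X.dual y))) :=
        X.form_swap' x _
    _ = starRingEnd ℂ (X.form (X.expChern (1 / 2) (X.dual (X.dual x))) (X.dual y)) := by
        rw [half, X.expChern_form]
    _ = starRingEnd ℂ (X.form (X.dual (X.expChern (-(1 / 2)) (X.dual x))) (X.dual y)) := by
        rw [h1]
    _ = (-1) ^ n * starRingEnd ℂ (X.pair (-(1 / 2)) (X.dual (X.dual x)) y) := by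
        rw [X.dual_form, h2, map_mul, map_pow, map_neg, map_one]
        rfl

theorem dual_zero_of {x : X.H} (h : X.dual x = 0) : x = 0 := by
  have h1 : ∀ y, X.form y x = 0 := by
    intro y
    rw [X.form_swap' x y, h, map_zero, map_zero, LinearMap.zero_apply, map_zero]
  refine X.form_nondeg x fun y => ?_
  rw [X.form_swap' y x, h1, map_zero]

theorem expChern_neg_self (t : ℂ) (x : X.H) : X.expChern t (X.expChern (-t) x) = x := by
  rw [← Module.End.mul_apply, ← X.expChern_add, add_neg_cancel, X.expChern_zero]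

/-- The Mukai pairing is nondegenerate (on the right). -/
theorem mukai_nondeg {y : X.H} (h : ∀ x, X.mukai x y = 0) : y = 0 := by
  have h1 : ∀ x, X.pair (-(1 / 2)) (X.dual (X.dual y)) x = 0 := by
    intro x
    have h2 := X.mukai_swap y x
    rw [h x] at h2
    have h3 := (mul_eq_zero.1 h2.symm).resolve_left (pow_ne_zero _ (by norm_num))
    exact (map_eq_zero _).1 h3
  have h3 : X.expChern (-(1 / 2)) (X.dual (X.dual (X.dual y))) = 0 := X.form_nondeg _ h1
  have h4 : X.dual (X.dual (X.dual y)) = 0 := by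
    have h5 := X.expChern_neg_self (1 / 2) (X.dual (X.dual (X.dual y)))
    rw [h3, map_zero] at h5
    exact h5.symm
  exact X.dual_zero_of (X.dual_zero_of (X.dual_zero_of h4))

theorem mukai_sub (x y y' : X.H) : X.mukai x (y - y') = X.mukai x y - X.mukai x y' := by
  simp only [mukai, map_sub]

theorem dual4 (x : X.H) : X.dual (X.dual (X.dual (X.dual x))) = x := by
  refine X.ind (P := fun x => X.dual (X.dual (X.dual (X.dual x))) = x) ?_ ?_ ?_ x
  · simp
  · intro a b ha hb
    simp only [map_add, ha, hb]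
  · intro p q x hx
    simp only [X.dual_apply hx, map_smul, smul_smul]
    have h1 : Complex.I ^ (p + q) * (Complex.I ^ (p + q) * (Complex.I ^ (p + q) *
        Complex.I ^ (p + q))) = 1 := by
      have h2 : Complex.I ^ (p + q) * (Complex.I ^ (p + q) * (Complex.I ^ (p + q) *
        Complex.I ^ (p + q))) = (Complex.I ^ 4) ^ (p + q) := by
        rw [← pow_mul, mul_comm 4, pow_mul]
        ring
      rw [h2, Complex.I_pow_four, one_pow]
    rw [show Complex.I ^ (p + q) * Complex.I ^ (p + q) * Complex.I ^ (p + q) *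
      Complex.I ^ (p + q) = 1 by rw [← h1]; ring, one_smul]

/-- Induction for the elements of a column. -/
theorem column_ind {p q : ℕ} {P : X.H → Prop} (h0 : P 0) (hadd : ∀ x y, P x → P y → P (x + y))
    (hp : ∀ a b, a + q = b + p → ∀ x ∈ X.piece a b, P x) {x : X.H} (hx : x ∈ X.column p q) :
    P x := by
  rw [column] at hx
  refine Submodule.iSup_induction _ (motive := P) hx ?_ h0 hadd
  intro a y hy
  refine Submodule.iSup_induction _ (motive := P) hy ?_ h0 hadd
  intro b z hz
  refine Submodule.iSup_induction _ (motive := P) hz ?_ h0 hadd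
  intro h w hw
  exact hp a b h w hw

theorem dual_dual_column {p q : ℕ} {x : X.H} (hx : x ∈ X.column p q) :
    X.dual (X.dual x) = (-1 : ℂ) ^ (p + q) • x := by
  refine X.column_ind (P := fun x => X.dual (X.dual x) = (-1 : ℂ) ^ (p + q) • x) ?_ ?_ ?_ hx
  · simp
  · intro a b ha hb
    rw [map_add, map_add, ha, hb, smul_add]
  · intro a b hab x hx
    rw [X.dual_apply hx, map_smul, X.dual_apply hx, smul_smul, ← mul_pow, Complex.I_mul_I]
    congr 1
    rcases Nat.even_or_odd (p + q) with h | h
    · have h1 : Even (a + b) := by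
        obtain ⟨k, hk⟩ := h
        rcases Nat.even_or_odd (a + b) with h1 | ⟨l, hl⟩
        · exact h1
        · exfalso
          omega
      rw [h.neg_one_pow, h1.neg_one_pow]
    · have h1 : Odd (a + b) := by
        obtain ⟨k, hk⟩ := h
        rcases Nat.even_or_odd (a + b) with ⟨l, hl⟩ | h1
        · exfalso
          omega
        · exact h1
      rw [h.neg_one_pow, h1.neg_one_pow]

theorem piece_le_column (p q : ℕ) : X.piece p q ≤ X.column p q :=
  le_iSup_of_le p (le_iSup_of_le q (le_iSup_of_le (add_comm p q) le_rfl))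

end Twisted

namespace Transform

variable {n : ℕ} {X Y : Twisted n} (Φ : Transform X Y)

theorem map_dual_dual (x : X.H) :
    Φ.map (X.dual (X.dual x)) = Y.dual (Y.dual (Φ.map x)) := by
  refine X.ind (P := fun x => Φ.map (X.dual (X.dual x)) = Y.dual (Y.dual (Φ.map x))) ?_ ?_ ?_ x
  · simp
  · intro a b ha hb
    simp only [map_add, ha, hb]
  · intro p q x hx
    rw [X.dual_dual_column (X.piece_le_column p q hx), Y.dual_dual_column (Φ.map_mem hx), map_smul]

theorem pair_neg_half (x y : X.H) :
    Y.pair (-(1 / 2)) (Φ.map x) (Φ.map y) = X.pair (-(1 / 2)) x y := by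
  have h1 := Y.mukai_swap (Φ.map (X.dual (X.dual x))) (Φ.map y)
  rw [Φ.map_mukai, X.mukai_swap, ← Φ.map_dual_dual, X.dual4] at h1
  have h3 : ((-1 : ℂ) ^ n) ≠ 0 := pow_ne_zero _ (by norm_num)
  exact ((starRingEnd ℂ).injective (mul_left_cancel₀ h3 h1)).symm

/-- The transform commutes with the Serre functor. -/
theorem map_serre (y : X.H) :
    Φ.map (X.expChern ((-1 : ℝ) : ℂ) y) = Y.expChern ((-1 : ℝ) : ℂ) (Φ.map y) := by
  refine sub_eq_zero.1 (Y.mukai_nondeg fun x => ?_)
  obtain ⟨x, rfl⟩ := Φ.map.surjective x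
  rw [Y.mukai_sub, Φ.map_mukai, X.mukai_eq, Y.mukai_eq, ← X.pair_add, ← Y.pair_add]
  have h2 : (1 / 2 + ((-1 : ℝ) : ℂ)) = -(1 / 2) := by
    push_cast
    norm_num
  rw [h2, Φ.pair_neg_half, sub_self]

theorem pair_nat (m : ℕ) (x y : X.H) :
    Y.pair (1 / 2 - m) (Φ.map x) (Φ.map y) = X.pair (1 / 2 - m) x y := by
  induction m generalizing y with
  | zero =>
    rw [Nat.cast_zero, sub_zero, ← X.mukai_eq, ← Y.mukai_eq]
    exact Φ.map_mukai x y
  | succ m ih =>
    have h1 : (1 / 2 - ((m + 1 : ℕ) : ℂ)) = (1 / 2 - m) + ((-1 : ℝ) : ℂ) := by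
      push_cast
      ring
    rw [h1, X.pair_add, Y.pair_add, ← Φ.map_serre, ih]

/-- The pairings as polynomials. -/
noncomputable def poly {n : ℕ} (X : Twisted n) (x y : X.H) : Polynomial ℂ :=
  ∑ k ∈ range (n + 1), Polynomial.C (((k.factorial : ℂ))⁻¹ *
    X.form ((X.chern ^ k) (X.dual x)) y) * Polynomial.X ^ k

theorem poly_eval {n : ℕ} (X : Twisted n) (x y : X.H) (t : ℂ) :
    (poly X x y).eval t = X.pair t x y := by
  rw [poly, Polynomial.eval_finsetSum, Twisted.pair, Twisted.expChern_eq, map_sum,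
    LinearMap.sum_apply]
  refine Finset.sum_congr rfl fun k _ => ?_
  rw [Polynomial.eval_mul, Polynomial.eval_C, Polynomial.eval_pow, Polynomial.eval_X, map_smul,
    LinearMap.smul_apply, smul_eq_mul]
  ring

/-- **The pairing `∫ x^∨ ∪ conj y` is preserved.** -/
theorem map_form' (x y : X.H) :
    Y.form (Y.dual (Φ.map x)) (Φ.map y) = X.form (X.dual x) y := by
  have h1 : poly Y (Φ.map x) (Φ.map y) = poly X x y := by
    refine Polynomial.eq_of_infinite_eval_eq _ _ ?_
    refine Set.Infinite.mono (s := Set.range fun m : ℕ => (1 / 2 - m : ℂ)) ?_ ?_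
    · rintro _ ⟨m, rfl⟩
      change (poly Y (Φ.map x) (Φ.map y)).eval _ = (poly X x y).eval _
      rw [poly_eval, poly_eval, Φ.pair_nat]
    · refine Set.infinite_range_of_injective fun a b h => ?_
      simp only [sub_right_inj] at h
      exact_mod_cast h
  have h2 := poly_eval Y (Φ.map x) (Φ.map y) 0
  rw [h1, poly_eval, Twisted.pair, Twisted.pair, X.expChern_zero, Y.expChern_zero] at h2
  exact h2.symm

end Transform

end Pool.Agent.TH125.Tw
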