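import Pool.Agent.TH125.Tw.Fibre

/-!
# Linear sections and Chern numbers
-/

namespace Pool.Agent.TH125.Tw

open Module Finset

theorem double_sum (f : ℕ → ℕ → ℤ) (n : ℕ) :
    ∑ p ∈ range n, ∑ q ∈ range n, f p q =
      ∑ c ∈ range n, ∑ s ∈ range (n - c), f (c + s) s +
        ∑ c ∈ range n, ∑ s ∈ range (n - (c + 1)), f s (c + 1 + s) := by
  induction n with
  | zero => simp
  | succ n ih =>
    have h1 : ∑ p ∈ range (n + 1), ∑ q ∈ range (n + 1), f p q =
        ∑ p ∈ range n, ∑ q ∈ range n, f p q + ∑ q ∈ range n, f n q +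
          ∑ p ∈ range (n + 1), f p n := by
      simp only [sum_range_succ, sum_add_distrib]
    have h2 : ∑ c ∈ range (n + 1), ∑ s ∈ range (n + 1 - c), f (c + s) s =
        ∑ c ∈ range n, ∑ s ∈ range (n - c), f (c + s) s + ∑ q ∈ range (n + 1), f n q := by
      have h3 : ∀ c ∈ range (n + 1), ∑ s ∈ range (n + 1 - c), f (c + s) s =
          ∑ s ∈ range (n - c), f (c + s) s + f n (n + 1 - 1 - c) := by
        intro c hc
        rw [mem_range] at hc
        have h4 : n + 1 - c = n - c + 1 := by omega
        rw [h4, sum_range_succ]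
        congr 2
        · omega
      rw [sum_congr rfl h3, sum_add_distrib, Finset.sum_range_reflect (fun j => f n j) (n + 1),
        sum_range_succ (fun c => ∑ s ∈ range (n - c), f (c + s) s)]
      simp
    have h5 : ∑ c ∈ range (n + 1), ∑ s ∈ range (n + 1 - (c + 1)), f s (c + 1 + s) =
        ∑ c ∈ range n, ∑ s ∈ range (n - (c + 1)), f s (c + 1 + s) + ∑ p ∈ range n, f p n := by
      rw [sum_range_succ]
      have h6 : n + 1 - (n + 1) = 0 := by omega
      rw [h6, range_zero, sum_empty, add_zero]
      have h3 : ∀ c ∈ range n, ∑ s ∈ range (n + 1 - (c + 1)), f s (c + 1 + s) =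
          ∑ s ∈ range (n - (c + 1)), f s (c + 1 + s) + f (n - 1 - c) n := by
        intro c hc
        rw [mem_range] at hc
        have h4 : n + 1 - (c + 1) = n - (c + 1) + 1 := by omega
        rw [h4, sum_range_succ]
        congr 2
        · omega
        · omega
      rw [sum_congr rfl h3, sum_add_distrib, Finset.sum_range_reflect (fun j => f j n) n]
    rw [h1, h2, h5, ih, sum_range_succ (fun q => f n q), sum_range_succ (fun p => f p n)]
    ring

variable {n : ℕ} {V W : Twisted n}

/-- The Euler characteristic is preserved. -/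
theorem euler_eq (Φ : Transform V W) : euler V = euler W := by
  rw [euler, euler, double_sum, double_sum]
  congr 1
  · refine sum_congr rfl fun c hc => ?_
    rw [mem_range] at hc
    have h1 := column_sum Φ (a := c) (b := 0) (t := n - c) (Or.inr rfl) (by omega)
    have h2 : n + 1 - c = n - c + 1 := by omega
    have h3 : ∀ Z : Twisted n, ∑ s ∈ range (n + 1 - c),
        (-1) ^ (c + s + s) * (Z.hodgeNumber (c + s) s : ℤ) =
        (-1) ^ c * ((∑ s ∈ range (n - c + 1), Z.hodgeNumber (c + s) (0 + s) : ℕ) : ℤ) := by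
      intro Z
      rw [h2, Nat.cast_sum, mul_sum]
      refine sum_congr rfl fun s _ => ?_
      rw [zero_add, add_assoc, pow_add, ← two_mul, pow_mul]
      norm_num
    rw [h3, h3, h1]
  · refine sum_congr rfl fun c hc => ?_
    rw [mem_range] at hc
    by_cases hcn : c + 1 = n + 1
    · have h2 : n + 1 - (c + 1) = 0 := by omega
      rw [h2, range_zero, sum_empty, sum_empty]
    have h1 := column_sum Φ (a := 0) (b := c + 1) (t := n - (c + 1)) (Or.inl rfl) (by omega)
    have h2 : n + 1 - (c + 1) = n - (c + 1) + 1 := by omega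
    have h3 : ∀ Z : Twisted n, ∑ s ∈ range (n + 1 - (c + 1)),
        (-1) ^ (s + (c + 1 + s)) * (Z.hodgeNumber s (c + 1 + s) : ℤ) =
        (-1) ^ (c + 1) *
          ((∑ s ∈ range (n - (c + 1) + 1), Z.hodgeNumber (0 + s) (c + 1 + s) : ℕ) : ℤ) := by
      intro Z
      rw [h2, Nat.cast_sum, mul_sum]
      refine sum_congr rfl fun s _ => ?_
      have h4 : s + (c + 1 + s) = c + 1 + 2 * s := by ring
      rw [zero_add, h4, pow_add _ (c + 1), pow_mul]
      norm_num
    rw [h3, h3, h1]

/-- Let `V` be the cohomology of `X`, a smooth projective variety of dimension `n`, `f : X → B` a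
fibration with general fibres of dimension `d`, and `D = r c₁(X)` the inverse image of a very ample
divisor class on `B`. Then `cut j` is the cohomology of the intersection of `j` general members of
`|D|`, and `number j = ∫ c_{n-j}(X) D^j`. -/
structure LinearSections {n : ℕ} (V : Twisted n) (d : ℕ) (r : ℚ) where
  /-- The cohomology of the intersections. -/
  cut : ∀ j, Twisted (n - j)
  /-- The intersection numbers. -/
  number : ℕ → ℚ
  /-- `D^j = 0` for `j > dim B`. -/
  vanish : ∀ j, n - d < j → number j = 0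
  /-- The adjunction formula `c(cut j) = c(X) / (1 + D)^j`. -/
  adjunction : ∀ j, 1 ≤ j → j ≤ n - d → (euler (cut j) : ℚ) =
    ∑ i ∈ range (n + 1), (-1) ^ i * ((j + i - 1).choose i : ℚ) * number (j + i)
  /-- The formula `∑ (-1)^{p+q} (p - n/2)^2 h^{p,q} = (n / 12) c_n + (1 / 6) c_1 c_{n-1}` of Libgober
  and Wood. -/
  libgoberWood : 3 * r * moment V = n * r * euler V + 2 * number 1

theorem number_aux {n k : ℕ} {N N' : ℕ → ℚ} (hN : ∀ j, k < j → N j = 0)
    (hN' : ∀ j, k < j → N' j = 0)
    (h : ∀ j, 1 ≤ j → j ≤ k → ∑ i ∈ range (n + 1), (-1) ^ i * ((j + i - 1).choose i : ℚ) * N (j + i)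
      = ∑ i ∈ range (n + 1), (-1) ^ i * ((j + i - 1).choose i : ℚ) * N' (j + i)) :
    ∀ m j, 1 ≤ j → k < j + m → N j = N' j := by
  intro m
  induction m with
  | zero =>
    intro j _ hj
    rw [hN j (by omega), hN' j (by omega)]
  | succ m ih =>
    intro j h1 hj
    by_cases hjk : k < j
    · rw [hN j hjk, hN' j hjk]
    push Not at hjk
    have h2 := h j h1 hjk
    rw [sum_range_succ', sum_range_succ'] at h2
    have h3 : ∑ i ∈ range n, (-1) ^ (i + 1) * ((j + (i + 1) - 1).choose (i + 1) : ℚ) *
        N (j + (i + 1)) = ∑ i ∈ range n, (-1) ^ (i + 1) * ((j + (i + 1) - 1).choose (i + 1) : ℚ) *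
        N' (j + (i + 1)) := by
      refine sum_congr rfl fun i _ => ?_
      rw [ih (j + (i + 1)) (by omega) (by omega)]
    rw [h3] at h2
    simpa using h2

theorem moment_eq {d : ℕ} {r : ℚ} (hr : r ≠ 0) (S : LinearSections V d r)
    (T : LinearSections W d r) (Φ : Transform V W)
    (Ψ : ∀ j, 1 ≤ j → j ≤ n - d → Nonempty (Transform (S.cut j) (T.cut j))) :
    moment V = moment W := by
  have h1 : S.number 1 = T.number 1 := by
    refine number_aux (n := n) S.vanish T.vanish (fun j h1 h2 => ?_) (n - d + 1) 1 le_rfl (by omega)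
    rw [← S.adjunction j h1 h2, ← T.adjunction j h1 h2]
    obtain ⟨ψ⟩ := Ψ j h1 h2
    rw [euler_eq ψ]
  have h2 := S.libgoberWood
  have h3 := T.libgoberWood
  rw [h1, euler_eq Φ, ← h3] at h2
  have h4 : (3 * r) ≠ 0 := mul_ne_zero (by norm_num) hr
  exact_mod_cast mul_left_cancel₀ h4 h2

end Pool.Agent.TH125.Tw
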